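import Mathlib
import Pool.Agent.helper10.BPC.Partition

set_option autoImplicit false

/-!
# Alkauskas' question on the divisibility of the binary partition function

For every `h ≥ 1` which is not divisible by `8` there are infinitely many `n` such that `h`
divides `b_2(n)`, the number of partitions of `n` into powers of two.
-/

namespace Pool.Agent.Results.MP_6550b3_nt.Alkauskas

/-- The number of binary partitions of `n`, i.e. of partitions of `n` all of whose parts are
powers of two (order irrelevant). -/
noncomputable def b2 (n : ℕ) : ℕ :=
  Nat.card {π : n.Partition // ∀ i ∈ π.parts, ∃ k : ℕ, i = 2 ^ k}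

/-- Every positive integer `h` with `8 ∤ h` divides `b_2(n)` for infinitely many `n`. -/
theorem result (h : ℕ) (hpos : 0 < h) (h8 : ¬ 8 ∣ h) : {n : ℕ | h ∣ b2 n}.Infinite :=
  Pool.Agent.helper10.BPC.infinite_b2 h hpos h8

end Pool.Agent.Results.MP_6550b3_nt.Alkauskas
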